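import Pool.Agent.Helper187.CC.Stmts

/-! Project H187-CYCLE, TaskMarg (helper349). -/

set_option autoImplicit false
open Finset

namespace H187CC
namespace MargAux

/-- `h(t^length) * pi'` -/
noncomputable def hp {A : Type} (t : ℝ) (w : List A) : ℝ :=
  (-t + (1 + t) * t * t ^ w.length + t ^ 2 * (t ^ w.length) ^ 2) / 2 * pi' t w

theorem el_apply {A : Type} (f : List A → ℝ) (x : ℕ → A) {a b : ℕ} (h : a ≤ b) :
    el f x a b = f (seg x a (b + 1 - a)) := by
  change (if a ≤ b then f (seg x a (b + 1 - a)) else 0) = _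
  rw [if_pos h]

theorem triple (f g k : IA) (n : ℕ) : (f * (g * k)) 0 n =
    ∑ a ∈ range (n + 1), ∑ b ∈ Ico a (n + 1), f 0 a * (g a b * k b n) := by
  rw [IncidenceAlgebra.mul_apply]
  have h1 : Icc 0 n = range (n + 1) := by
    ext a
    simp only [mem_Icc, mem_range]
    omega
  rw [h1]
  apply Finset.sum_congr rfl
  intro a _
  rw [IncidenceAlgebra.mul_apply, Finset.mul_sum]
  have h2 : Icc a n = Ico a (n + 1) := by
    ext b
    simp only [mem_Icc, mem_Ico]
    omega
  rw [h2]

theorem psi_eq {A : Type} {t : ℝ} (h0 : 0 < t) (h1 : t < 1) (w : List A) :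
    psi t w = (1 - t ^ w.length) * ((1 - t * t ^ w.length) * pi' t w) := by
  unfold psi
  rw [phi_eq_pi t h0 h1]
  ring

theorem phi_eq {A : Type} {t : ℝ} (h0 : 0 < t) (h1 : t < 1) (w : List A) :
    phi t w = (1 - t * t ^ w.length) * pi' t w := by
  rw [phi_eq_pi t h0 h1]
  ring

theorem partA (hM : TaskM) {q : ℕ} {t : ℝ} (h0 : 0 < t) (h1 : t < 1)
    (hq : (q : ℝ) = t + 2 + 1 / t) (n : ℕ) (y : ℕ → Fin q) :
    ∑ c : Fin q, ∑ a ∈ range (n + 1), ∑ b ∈ Ico a (n + 1),
      Delta t (seg y a (b + 1 - a)) * psi t (seg y b (n + 1 - b) ++ c :: seg y 0 (a + 1)) =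
    (1 + t) / t * ((1 + t) * (el (phi t) y * (el (Delta t) y * el (phi t) y)) 0 n +
      (el (hp t) y * (el (Delta t) y * el (psi t) y)) 0 n +
      (el (psi t) y * (el (Delta t) y * el (hp t) y)) 0 n) := by
  rw [triple, triple, triple, Finset.mul_sum, ← Finset.sum_add_distrib,
    ← Finset.sum_add_distrib, Finset.mul_sum, Finset.sum_comm]
  apply Finset.sum_congr rfl
  intro a ha
  rw [Finset.sum_comm, Finset.mul_sum, ← Finset.sum_add_distrib, ← Finset.sum_add_distrib,
    Finset.mul_sum]
  apply Finset.sum_congr rfl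
  intro b hb
  rw [mem_range] at ha
  rw [mem_Ico] at hb
  have hab : a ≤ b := hb.1
  have hbn : b ≤ n := by omega
  rw [el_apply _ _ (Nat.zero_le a), el_apply _ _ (Nat.zero_le a), el_apply _ _ (Nat.zero_le a),
    el_apply _ _ hab, el_apply _ _ hbn, el_apply _ _ hbn, el_apply _ _ hbn]
  have hsum : ∑ c : Fin q, Delta t (seg y a (b + 1 - a)) *
      psi t (seg y b (n + 1 - b) ++ c :: seg y 0 (a + 1)) =
      Delta t (seg y a (b + 1 - a)) * ((1 - t * (t ^ (a + 1) * t ^ (n + 1 - b))) *
        ((1 - t * (t * (t ^ (a + 1) * t ^ (n + 1 - b)))) *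
          ((1 + t) / t * (pi' t (seg y b (n + 1 - b)) * pi' t (seg y 0 (a + 1)))))) := by
    rw [← hM q t h0 h1 hq, Finset.mul_sum, Finset.mul_sum, Finset.mul_sum]
    apply Finset.sum_congr rfl
    intro c _
    rw [psi_eq h0 h1]
    have hlen : t ^ (seg y b (n + 1 - b) ++ c :: seg y 0 (a + 1)).length =
        t * (t ^ (a + 1) * t ^ (n + 1 - b)) := by
      rw [List.length_append, List.length_cons, seg_length, seg_length, pow_add, pow_succ]
      ring
    rw [hlen]
  rw [hsum, Nat.sub_zero, phi_eq h0 h1 (seg y 0 (a + 1)), phi_eq h0 h1 (seg y b (n + 1 - b)),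
    psi_eq h0 h1 (seg y 0 (a + 1)), psi_eq h0 h1 (seg y b (n + 1 - b))]
  unfold hp
  rw [seg_length, seg_length]
  ring

theorem Delta_cons {A : Type} (t : ℝ) (a b : A) {l : List A} (hl : l ≠ []) :
    Delta t (a :: b :: l) = ind (Proper (a :: b :: l)) * ((1 + t) * t ^ l.length *
      pi' t ((b :: l).dropLast) * (ind (some a = l.getLast?) - ind (some b = l.getLast?)
        - ind (some a = (b :: l).dropLast.getLast?) +
          ind (some b = (b :: l).dropLast.getLast?))) := by
  obtain ⟨c, w, rfl⟩ := List.exists_cons_of_ne_nil hl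
  rfl

theorem seg_last {A : Type} (y : ℕ → A) (n : ℕ) : seg y 0 (n + 1) = seg y 0 n ++ [y n] := by
  rw [seg_append]
  simp [seg_succ]

theorem ind_true {p : Prop} (h : p) : ind p = 1 := by
  unfold ind
  rw [if_pos h]

theorem ind_false {p : Prop} (h : ¬ p) : ind p = 0 := by
  unfold ind
  rw [if_neg h]

theorem partB {q : ℕ} {t : ℝ} (n : ℕ) (y : ℕ → Fin q)
    (hy : Proper (seg y 0 (n + 1))) :
    ∑ c : Fin q, Delta t (c :: seg y 0 (n + 1) ++ [c]) =
      (1 + t) * t ^ (n + 1) * pi' t (seg y 0 (n + 1)) *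
        ((q : ℝ) - 2 + q * ind (y 0 = y n)) := by
  classical
  have hterm : ∀ c : Fin q, Delta t (c :: seg y 0 (n + 1) ++ [c]) =
      (1 + t) * t ^ (n + 1) * pi' t (seg y 0 (n + 1)) * (1 + ind (y 0 = y n)) *
        (1 - (if y 0 = c then 1 else 0) - (if y n = c then 1 else 0) +
          (if y 0 = c then (if y 0 = y n then 1 else 0) else 0)) := by
    intro c
    have hw : c :: seg y 0 (n + 1) ++ [c] = c :: y 0 :: (seg y 1 n ++ [c]) := by
      rw [seg_succ]
      rfl
    have hd : (y 0 :: (seg y 1 n ++ [c])).dropLast = seg y 0 (n + 1) := by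
      have : y 0 :: (seg y 1 n ++ [c]) = seg y 0 (n + 1) ++ [c] := by
        rw [seg_succ]
        rfl
      rw [this, List.dropLast_concat]
    have hlast : (seg y 1 n ++ [c]).getLast? = some c := by simp
    have hlast2 : (seg y 0 (n + 1)).getLast? = some (y n) := by
      rw [seg_last]
      simp
    have hlen : (seg y 1 n ++ [c]).length = n + 1 := by simp
    have hprop : Proper (c :: y 0 :: (seg y 1 n ++ [c])) ↔ c ≠ y 0 ∧ y n ≠ c := by
      have e1 : y 0 :: (seg y 1 n ++ [c]) = seg y 0 n ++ y n :: [c] := by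
        have : y 0 :: (seg y 1 n ++ [c]) = seg y 0 (n + 1) ++ [c] := by
          rw [seg_succ]
          rfl
        rw [this, seg_last]
        simp
      constructor
      · intro h
        refine ⟨h.1, ?_⟩
        have h2 := h.2
        rw [e1] at h2
        exact (Proper_append_right h2).1
      · rintro ⟨h, h'⟩
        refine ⟨h, ?_⟩
        rw [e1]
        apply Proper_glue
        · rw [← seg_last]
          exact hy
        · exact ⟨h', trivial⟩
    rw [hw, Delta_cons _ _ _ (by simp), hd, hlast, hlast2, hlen]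
    by_cases hc0 : y 0 = c
    · have hnp : ¬ Proper (c :: y 0 :: (seg y 1 n ++ [c])) := by
        rw [hprop]
        rintro ⟨h, _⟩
        exact h hc0.symm
      rw [ind_false hnp, if_pos hc0, if_pos hc0, zero_mul]
      by_cases he : y 0 = y n
      · rw [if_pos he, if_pos (he ▸ hc0)]
        ring
      · have : y n ≠ c := fun h => he (hc0.trans h.symm)
        rw [if_neg he, if_neg this]
        ring
    · by_cases hcn : y n = c
      · have hnp : ¬ Proper (c :: y 0 :: (seg y 1 n ++ [c])) := by
          rw [hprop]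
          rintro ⟨_, h⟩
          exact h hcn
        rw [ind_false hnp, if_neg hc0, if_neg hc0, if_pos hcn, zero_mul]
        ring
      · have hp' : Proper (c :: y 0 :: (seg y 1 n ++ [c])) := by
          rw [hprop]
          exact ⟨fun h => hc0 h.symm, hcn⟩
        have i1 : ind (some c = some c) = 1 := ind_true rfl
        have i2 : ind (some (y 0) = some c) = 0 := ind_false (by simpa using hc0)
        have i3 : ind (some c = some (y n)) = 0 :=
          ind_false (by
            intro h
            exact hcn (Option.some.inj h).symm)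
        have i4 : ind (some (y 0) = some (y n)) = ind (y 0 = y n) := by
          congr 1
          simp
        rw [ind_true hp', if_neg hc0, if_neg hc0, if_neg hcn, i1, i2, i3, i4]
        ring
  rw [Finset.sum_congr rfl (fun c _ => hterm c), ← Finset.mul_sum, Finset.sum_add_distrib,
    Finset.sum_sub_distrib, Finset.sum_sub_distrib, Finset.sum_ite_eq, Finset.sum_ite_eq,
    Finset.sum_ite_eq]
  simp only [Finset.mem_univ, if_true, Finset.sum_const, Finset.card_univ, Fintype.card_fin,
    nsmul_eq_mul, mul_one]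
  by_cases he : y 0 = y n
  · rw [ind_true he, if_pos he]
    ring
  · rw [ind_false he, if_neg he]
    ring

end MargAux

open MargAux

theorem taskMarg : TaskMarg := by
  intro hM hInv hStar q t h0 h1 hq m hm y hy
  obtain ⟨n, rfl⟩ : ∃ n, m = n + 1 := ⟨m - 1, by omega⟩
  rw [Finset.sum_sub_distrib, partA hM h0 h1 hq, partB n y hy]
  obtain ⟨hI1, hI2⟩ := hInv (Fin q) t h0 h1 y
  have hS := hStar (Fin q) t h0 h1 y
  have e1 : (el (phi t) y * (el (Delta t) y * el (phi t) y)) 0 n =
      el (phi t) y 0 n + el (eps t) y 0 n := by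
    rw [← mul_assoc, hS]
    rfl
  have e2 : (el (hp t) y * (el (Delta t) y * el (psi t) y)) 0 n = el (hp t) y 0 n := by
    rw [hI2, mul_one]
  have e3 : (el (psi t) y * (el (Delta t) y * el (hp t) y)) 0 n = el (hp t) y 0 n := by
    rw [← mul_assoc, hI1, one_mul]
  rw [e1, e2, e3, el_apply _ _ (Nat.zero_le n), el_apply _ _ (Nat.zero_le n),
    el_apply _ _ (Nat.zero_le n), Nat.sub_zero, phi_eq h0 h1]
  unfold eps hp
  have hh : ind ((seg y 0 (n + 1)).head? = (seg y 0 (n + 1)).getLast?) = ind (y 0 = y n) := by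
    have a1 : (seg y 0 (n + 1)).head? = some (y 0) := by
      rw [seg_succ]
      rfl
    have a2 : (seg y 0 (n + 1)).getLast? = some (y n) := by
      rw [seg_last]
      simp
    rw [a1, a2]
    congr 1
    simp
  rw [hh, seg_length]
  have ht : t ≠ 0 := h0.ne'
  rw [hq]
  field_simp
  ring

end H187CC
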